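import Mathlib

/-!
# The Recht-Re inequality with norms inside the sums is false

Let `P`, `Q` be the orthogonal projections of a plane onto two lines with cosine `c`.  For each
colouring `f` of the letters `1, …, n` by `{0, P, Q}` whose classes `P` and `Q` have at most
`k = ⌈m/2⌉` letters, take a `2 × 2` diagonal block, in which the `j`-th matrix is the matrix given
by the colour of `j` (`0`, `P` or `Q`).  The norm of a product is the maximum over the blocks.
A word with distinct letters has norm `c` (first `k` letters coloured `P`, the others `Q`).  A word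
with more than `k` different letters needs both colours, so its norm is at most `c`, and if
moreover its first and last letters are equal, at most `c ^ 2`.  Words with at most `k` letters are
rare, much rarer than words whose first and last letters are equal.
-/

open scoped Matrix.Norms.L2Operator ComplexOrder
open Finset Matrix

namespace Pool.Agent.Results.MP_6169a9_an.AMGMFails

variable {𝕜 : Type*} [RCLike 𝕜]

/-- The product `A_{j_1} A_{j_2} ⋯ A_{j_m}` attached to the word `j : Fin m → Fin n`. -/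
def word {n m : ℕ} {α : Type*} [Fintype α] [DecidableEq α] (A : Fin n → Matrix α α 𝕜)
    (j : Fin m → Fin n) : Matrix α α 𝕜 :=
  (List.ofFn fun i => A (j i)).prod

/-- The with-replacement average `W_m` of the norms of length-`m` products. -/
noncomputable def W (m : ℕ) {n d : ℕ} (A : Fin n → Matrix (Fin d) (Fin d) 𝕜) : ℝ :=
  1 / (n : ℝ) ^ m * ∑ j : Fin m → Fin n, ‖word A j‖

/-- The without-replacement average `D_m` of the norms of length-`m` products. -/
noncomputable def D (m : ℕ) {n d : ℕ} (A : Fin n → Matrix (Fin d) (Fin d) 𝕜) : ℝ :=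
  ((n - m).factorial : ℝ) / (n.factorial : ℝ) *
    ∑ j : Fin m → Fin n with Function.Injective j, ‖word A j‖

/-- The inequality `W_m ≥ D_m` fails for some `n` positive semidefinite `d × d` matrices over `𝕜`
(`𝕜 = ℂ`: complex Hermitian ones, `𝕜 = ℝ`: real symmetric ones), which moreover are idempotent,
i.e. orthogonal projections. The norm is the spectral norm. -/
def Fails (𝕜 : Type) [RCLike 𝕜] (m n : ℕ) : Prop :=
  ∃ d : ℕ, 1 ≤ d ∧ ∃ A : Fin n → Matrix (Fin d) (Fin d) 𝕜,
    (∀ j, (A j).PosSemidef ∧ A j * A j = A j) ∧ W m A < D m A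

/-- reindexing does not change the operator norm -/
lemma norm_submatrix_le {α β : Type*} [Fintype α] [Fintype β] [DecidableEq α] [DecidableEq β]
    (A : Matrix α α 𝕜) (e : β ≃ α) : ‖A.submatrix e e‖ ≤ ‖A‖ := by
  rw [l2_opNorm_def (A.submatrix e e)]
  refine ContinuousLinearMap.opNorm_le_bound _ (norm_nonneg _) fun x => ?_
  have h := l2_opNorm_mulVec A (WithLp.toLp 2 (fun i => x (e.symm i)))
  have hx : ‖(WithLp.toLp 2 (fun i => x (e.symm i)) : EuclideanSpace 𝕜 α)‖ = ‖x‖ := by
    rw [EuclideanSpace.norm_eq, EuclideanSpace.norm_eq]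
    congr 1
    exact Equiv.sum_comp e.symm (fun i => ‖x i‖ ^ 2)
  rw [hx] at h
  refine le_trans (le_of_eq ?_) h
  rw [EuclideanSpace.norm_eq, EuclideanSpace.norm_eq]
  congr 1
  rw [← Equiv.sum_comp e]
  refine Finset.sum_congr rfl fun i _ => ?_
  congr 2
  simp only [LinearEquiv.trans_apply]
  change (∑ j, A (e i) (e j) * x j) = ∑ j, A (e i) j * x (e.symm j)
  rw [← Equiv.sum_comp e]
  simp

lemma norm_submatrix_equiv {α β : Type*} [Fintype α] [Fintype β] [DecidableEq α] [DecidableEq β]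
    (A : Matrix α α 𝕜) (e : β ≃ α) : ‖A.submatrix e e‖ = ‖A‖ := by
  refine le_antisymm (norm_submatrix_le A e) ?_
  have h := norm_submatrix_le (A.submatrix e e) e.symm
  simpa using h

/-- a self-adjoint idempotent has norm at most one -/
lemma norm_proj_le {α : Type*} [Fintype α] [DecidableEq α] (E : Matrix α α 𝕜)
    (h1 : Eᴴ = E) (h2 : E * E = E) : ‖E‖ ≤ 1 := by
  have h := l2_opNorm_conjTranspose_mul_self E
  rw [h1, h2] at h
  by_contra hc
  push Not at hc
  nlinarith

/-- The three vectors. -/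
noncomputable def vec (c : ℝ) : Fin 3 → Fin 2 → 𝕜 :=
  ![![0, 0], ![1, 0], ![(c : 𝕜), (Real.sqrt (1 - c ^ 2) : 𝕜)]]

/-- inner products of the three vectors -/
def ip (c : ℝ) : Fin 3 → Fin 3 → ℝ := ![![0, 0, 0], ![0, 1, c], ![0, c, 1]]

lemma ip_eq {c : ℝ} (h0 : 0 < c) (h1 : c < 1) (a b : Fin 3) :
    star (vec (𝕜 := 𝕜) c a) ⬝ᵥ vec c b = ((ip c a b : ℝ) : 𝕜) := by
  have hs : Real.sqrt (1 - c ^ 2) * Real.sqrt (1 - c ^ 2) = 1 - c ^ 2 :=
    Real.mul_self_sqrt (by nlinarith)
  have hs' : ((Real.sqrt (1 - c ^ 2) : ℝ) : 𝕜) * ((Real.sqrt (1 - c ^ 2) : ℝ) : 𝕜)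
      = 1 - (c : 𝕜) ^ 2 := by
    rw [← RCLike.ofReal_mul, hs]; push_cast; ring
  fin_cases a <;> fin_cases b <;>
    simp [vec, ip, dotProduct, Fin.sum_univ_two]
  rw [hs']; ring

noncomputable def M (c : ℝ) (a : Fin 3) : Matrix (Fin 2) (Fin 2) 𝕜 :=
  vecMulVec (vec c a) (star (vec c a))

/-- The scalar coefficient of a product of the matrices `M`. -/
def coef (c : ℝ) : List (Fin 3) → ℝ
  | [] => 1
  | [_] => 1
  | a :: b :: l => ip c a b * coef c (b :: l)

lemma prod_M {c : ℝ} (h0 : 0 < c) (h1 : c < 1) (l : List (Fin 3)) (a : Fin 3) :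
    ((a :: l).map (M (𝕜 := 𝕜) c)).prod =
      ((coef c (a :: l) : ℝ) : 𝕜) • vecMulVec (vec c a) (star (vec c (l.getLastD a))) := by
  induction l generalizing a with
  | nil => simp [coef, M]
  | cons b l ih =>
    rw [List.map_cons, List.prod_cons, ih b, List.getLastD_cons]
    rw [M, Matrix.mul_smul, vecMulVec_mul_vecMulVec, ip_eq h0 h1, coef]
    ext i j
    simp only [vecMulVec_apply, Matrix.smul_apply, Pi.smul_apply, smul_eq_mul, RCLike.ofReal_mul]
    ring

/-- a product containing the zero matrix vanishes -/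
lemma prod_zero {c : ℝ} (L : List (Fin 3)) (h : (0 : Fin 3) ∈ L) :
    (L.map (M (𝕜 := 𝕜) c)).prod = 0 := by
  apply List.prod_eq_zero
  rw [List.mem_map]
  refine ⟨0, h, ?_⟩
  ext i j
  fin_cases i <;> simp [M, vec, vecMulVec_apply]

lemma coef_nonneg {c : ℝ} (h0 : 0 < c) (L : List (Fin 3)) : 0 ≤ coef c L := by
  induction L with
  | nil => simp [coef]
  | cons a l ih =>
    cases l with
    | nil => simp [coef]
    | cons b l =>
      rw [coef]
      refine mul_nonneg ?_ ih
      fin_cases a <;> fin_cases b <;> simp [ip, h0.le]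

lemma ip_le {c : ℝ} (h0 : 0 < c) (h1 : c < 1) (a b : Fin 3) : ip c a b ≤ 1 := by
  fin_cases a <;> fin_cases b <;> simp [ip, h1.le]

lemma ip_nonneg {c : ℝ} (h0 : 0 < c) (a b : Fin 3) : 0 ≤ ip c a b := by
  fin_cases a <;> fin_cases b <;> simp [ip, h0.le]

lemma ip_le_of_ne {c : ℝ} (h0 : 0 < c) (a b : Fin 3) (h : a ≠ b) : ip c a b ≤ c := by
  fin_cases a <;> fin_cases b <;> simp [ip, h0.le] at h ⊢

lemma coef_le_one {c : ℝ} (h0 : 0 < c) (h1 : c < 1) (L : List (Fin 3)) : coef c L ≤ 1 := by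
  induction L with
  | nil => simp [coef]
  | cons a l ih =>
    cases l with
    | nil => simp [coef]
    | cons b l =>
      rw [coef]
      have := ip_le h0 h1 a b
      have := ip_nonneg h0 a b
      have := coef_nonneg h0 (b :: l)
      nlinarith

/-- a nonconstant colour word has coefficient at most `c` -/
lemma coef_le {c : ℝ} (h0 : 0 < c) (h1 : c < 1) (l : List (Fin 3)) (a : Fin 3)
    (h : ∃ b ∈ l, b ≠ a) : coef c (a :: l) ≤ c := by
  induction l generalizing a with
  | nil => simp at h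
  | cons b l ih =>
    rw [coef]
    have h2 := coef_le_one h0 h1 (b :: l)
    have h3 := coef_nonneg h0 (b :: l)
    have h4 := ip_nonneg h0 a b
    by_cases hab : a = b
    · subst hab
      have h5 : coef c (a :: l) ≤ c := ih a (by
        obtain ⟨x, hx, hxa⟩ := h
        rcases List.mem_cons.1 hx with rfl | hx
        · exact absurd rfl hxa
        · exact ⟨x, hx, hxa⟩)
      have h6 := ip_le h0 h1 a a
      nlinarith
    · have h5 := ip_le_of_ne h0 a b hab
      nlinarith

lemma getLastD_mem (l : List (Fin 3)) (a : Fin 3) : l.getLastD a ∈ a :: l := by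
  induction l generalizing a with
  | nil => simp
  | cons b l ih =>
    rw [List.getLastD_cons]
    exact List.mem_cons_of_mem _ (ih b)

/-- a nonconstant colour word with equal first and last colour has coefficient at most `c ^ 2` -/
lemma coef_le_sq {c : ℝ} (h0 : 0 < c) (h1 : c < 1) (l : List (Fin 3)) (a : Fin 3)
    (h : ∃ b ∈ l, b ≠ a) (hl : l.getLastD a = a) : coef c (a :: l) ≤ c ^ 2 := by
  induction l generalizing a with
  | nil => simp at h
  | cons b l ih =>
    rw [coef]
    rw [List.getLastD_cons] at hl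
    have h2 := coef_le_one h0 h1 (b :: l)
    have h3 := coef_nonneg h0 (b :: l)
    have h4 := ip_nonneg h0 a b
    by_cases hab : a = b
    · subst hab
      have h5 : coef c (a :: l) ≤ c ^ 2 := ih a (by
        obtain ⟨x, hx, hxa⟩ := h
        rcases List.mem_cons.1 hx with rfl | hx
        · exact absurd rfl hxa
        · exact ⟨x, hx, hxa⟩) hl
      have h6 := ip_le h0 h1 a a
      nlinarith
    · have h5 := ip_le_of_ne h0 a b hab
      have h6 : coef c (b :: l) ≤ c := by
        apply coef_le h0 h1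
        have h7 := getLastD_mem l b
        rw [hl] at h7
        rcases List.mem_cons.1 h7 with h8 | h8
        · exact absurd h8 hab
        · exact ⟨a, h8, hab⟩
      nlinarith

/-- the colour word `1 ⋯ 1 2 ⋯ 2` has coefficient `c` -/
lemma coef_two {c : ℝ} (s t : ℕ) :
    coef c (List.replicate (s + 1) 1 ++ List.replicate (t + 1) 2) = c := by
  induction s with
  | zero =>
    simp only [List.replicate_succ, List.replicate_zero, List.nil_append, List.cons_append]
    rw [coef]
    have : coef c (2 :: List.replicate t (2 : Fin 3)) = 1 := by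
      induction t with
      | zero => simp [coef]
      | succ t ih => rw [List.replicate_succ, coef, ih]; simp [ip]
    rw [this]; simp [ip]
  | succ s ih =>
    rw [List.replicate_succ, List.cons_append, List.replicate_succ, List.cons_append, coef]
    rw [List.replicate_succ, List.cons_append] at ih
    rw [ih]; simp [ip]

lemma M_idem {c : ℝ} (h0 : 0 < c) (h1 : c < 1) (a : Fin 3) :
    M (𝕜 := 𝕜) c a * M c a = M c a := by
  rw [M, vecMulVec_mul_vecMulVec, ip_eq h0 h1]
  fin_cases a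
  · ext i j; fin_cases i <;> simp [vec, vecMulVec_apply]
  · simp [ip]
  · simp [ip]

lemma M_herm {c : ℝ} (a : Fin 3) : (M (𝕜 := 𝕜) c a)ᴴ = M c a := by
  rw [M, conjTranspose_vecMulVec]
  simp

lemma norm_block_le {κ : Type*} [Fintype κ] [DecidableEq κ] {c : ℝ} (h0 : 0 < c) (h1 : c < 1)
    (K : ℝ) (hK : 0 ≤ K) (B : κ → Matrix (Fin 2) (Fin 2) 𝕜)
    (h : ∀ f, ∃ (t : ℝ) (a z : Fin 3), 0 ≤ t ∧ t ≤ K ∧
      B f = (t : 𝕜) • vecMulVec (vec c a) (star (vec c z))) :
    ‖blockDiagonal B‖ ≤ K := by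
  choose t a z ht0 htK hB using h
  have hfac : blockDiagonal B = diagonal (fun p : Fin 2 × κ => (t p.2 : 𝕜)) *
      blockDiagonal (fun f => vecMulVec (vec c (a f)) (star (vec c (z f)))) := by
    ext ⟨i, f⟩ ⟨j, g⟩
    rw [diagonal_mul, blockDiagonal_apply, blockDiagonal_apply]
    by_cases hfg : f = g
    · subst hfg; simp [hB]
    · simp [hfg]
  have hR : ‖blockDiagonal (fun f => vecMulVec (vec (𝕜 := 𝕜) c (a f)) (star (vec c (z f))))‖
      ≤ 1 := by
    set R := blockDiagonal (fun f => vecMulVec (vec (𝕜 := 𝕜) c (a f)) (star (vec c (z f))))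
      with hRdef
    have hE : Rᴴ * R = blockDiagonal (fun f => ((ip c (a f) (a f) : ℝ) : 𝕜) • M c (z f)) := by
      rw [hRdef, blockDiagonal_conjTranspose, ← blockDiagonal_mul]
      congr 1
      funext f
      simp only [conjTranspose_vecMulVec, star_star]
      rw [vecMulVec_mul_vecMulVec, ip_eq h0 h1, M]
      ext i j
      simp only [vecMulVec_apply, Matrix.smul_apply, Pi.smul_apply, smul_eq_mul]
      ring
    have hsq : ∀ x : Fin 3, ip c x x * ip c x x = ip c x x := by
      intro x; fin_cases x <;> simp [ip]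
    have h3 : ‖Rᴴ * R‖ ≤ 1 := by
      rw [hE]
      apply norm_proj_le
      · rw [blockDiagonal_conjTranspose]
        congr 1
        funext f
        rw [conjTranspose_smul, M_herm]
        simp
      · rw [← blockDiagonal_mul]
        congr 1
        funext f
        rw [smul_mul_smul_comm, M_idem h0 h1, ← RCLike.ofReal_mul, hsq]
    rw [l2_opNorm_conjTranspose_mul_self] at h3
    nlinarith [norm_nonneg R]
  rw [hfac]
  refine le_trans (l2_opNorm_mul _ _) ?_
  rw [l2_opNorm_diagonal]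
  have h4 : ‖(fun p : Fin 2 × κ => (t p.2 : 𝕜))‖ ≤ K := by
    rw [pi_norm_le_iff_of_nonneg hK]
    intro p
    rw [RCLike.norm_ofReal, abs_of_nonneg (ht0 _)]
    exact htK _
  have h5 := norm_nonneg (fun p : Fin 2 × κ => (t p.2 : 𝕜))
  nlinarith [norm_nonneg (blockDiagonal (fun f => vecMulVec (vec (𝕜 := 𝕜) c (a f))
    (star (vec c (z f)))))]

lemma le_norm_block {κ : Type*} [Fintype κ] [DecidableEq κ] {c : ℝ} (h0 : 0 < c) (h1 : c < 1)
    (B : κ → Matrix (Fin 2) (Fin 2) 𝕜) (f : κ) (t : ℝ) (ht : 0 ≤ t)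
    (h : B f = (t : 𝕜) • vecMulVec (vec c 1) (star (vec c 2))) :
    t ≤ ‖blockDiagonal B‖ := by
  -- multiply by a single-block partial isometry
  set X : Matrix (Fin 2 × κ) (Fin 2 × κ) 𝕜 :=
    blockDiagonal (fun g => ((if g = f then (1 : ℝ) else 0 : ℝ) : 𝕜) •
      vecMulVec (vec c 2) (star (vec c 1))) with hX
  have hXn : ‖X‖ ≤ 1 := by
    refine norm_block_le h0 h1 1 zero_le_one _ fun g => ⟨if g = f then 1 else 0, 2, 1, ?_, ?_, rfl⟩
    · split_ifs <;> norm_num
    · split_ifs <;> norm_num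
  have hprod : blockDiagonal B * X = (t : 𝕜) • blockDiagonal
      (fun g => if g = f then M (𝕜 := 𝕜) c 1 else 0) := by
    rw [hX, ← blockDiagonal_mul, ← blockDiagonal_smul]
    congr 1
    funext g
    by_cases hg : g = f
    · subst hg
      simp only [if_true, RCLike.ofReal_one, one_smul, Pi.smul_apply]
      rw [h, smul_mul_assoc, vecMulVec_mul_vecMulVec, ip_eq h0 h1, M]
      simp [ip]
    · simp [hg]
  have hE1 : (1 : ℝ) ≤ ‖blockDiagonal (fun g => if g = f then M (𝕜 := 𝕜) c 1 else 0)‖ := by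
    set E := blockDiagonal (fun g => if g = f then M (𝕜 := 𝕜) c 1 else 0) with hEdef
    have hEE : Eᴴ * E = E := by
      rw [hEdef, blockDiagonal_conjTranspose, ← blockDiagonal_mul]
      congr 1
      funext g
      by_cases hg : g = f
      · simp [hg, M_herm, M_idem h0 h1]
      · simp [hg]
    have hne : E ≠ 0 := by
      intro h0'
      have := congrFun (congrFun h0' (0, f)) (0, f)
      rw [hEdef, blockDiagonal_apply] at this
      simp [M, vec, vecMulVec_apply] at this
    have h6 := l2_opNorm_conjTranspose_mul_self E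
    rw [hEE] at h6
    have h7 : 0 < ‖E‖ := norm_pos_iff.2 hne
    by_contra hc
    push Not at hc
    nlinarith
  have h8 := l2_opNorm_mul (blockDiagonal B) X
  rw [hprod, norm_smul, RCLike.norm_ofReal, abs_of_nonneg ht] at h8
  have h9 := norm_nonneg (blockDiagonal B)
  nlinarith [norm_nonneg X]

/-- colourings of the letters with two colour classes of size at most `k` -/
def Col (n k : ℕ) : Type :=
  {f : Fin n → Fin 3 // #{x | f x = 1} ≤ k ∧ #{x | f x = 2} ≤ k}

instance (n k : ℕ) : Fintype (Col n k) := by unfold Col; infer_instance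
instance (n k : ℕ) : DecidableEq (Col n k) := by unfold Col; infer_instance

/-- the block matrices -/
noncomputable def blk (c : ℝ) (n k : ℕ) (j : Fin n) : Matrix (Fin 2 × Col n k) (Fin 2 × Col n k) 𝕜 :=
  blockDiagonal (fun f => M c (f.1 j))

lemma prod_blk (c : ℝ) (n k : ℕ) (L : List (Fin n)) :
    (L.map (blk (𝕜 := 𝕜) c n k)).prod =
      blockDiagonal (fun f : Col n k => ((L.map f.1).map (M c)).prod) := by
  induction L with
  | nil =>
    simp only [List.map_nil, List.prod_nil]
    exact blockDiagonal_one.symm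
  | cons a l ih =>
    simp only [List.map_cons, List.prod_cons]
    rw [ih, blk, ← blockDiagonal_mul]

lemma word_blk (c : ℝ) (n k m : ℕ) (w : Fin m → Fin n) :
    word (blk (𝕜 := 𝕜) c n k) w =
      blockDiagonal (fun f : Col n k => (((List.ofFn w).map f.1).map (M c)).prod) := by
  rw [← prod_blk, word, List.map_ofFn]
  rfl

lemma norm_word_le {c : ℝ} (h0 : 0 < c) (h1 : c < 1) (n k m : ℕ) (w : Fin (m + 1) → Fin n)
    (K : ℝ) (hK : 0 ≤ K)
    (h : ∀ f : Col n k, (∀ i, f.1 (w i) ≠ 0) → ∀ a l, (List.ofFn w).map f.1 = a :: l →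
      coef c (a :: l) ≤ K) :
    ‖word (blk (𝕜 := 𝕜) c n k) w‖ ≤ K := by
  rw [word_blk]
  apply norm_block_le h0 h1 K hK
  intro f
  by_cases hz : (0 : Fin 3) ∈ (List.ofFn w).map f.1
  · refine ⟨0, 0, 0, le_rfl, hK, ?_⟩
    rw [prod_zero _ hz]; simp
  · obtain ⟨a, l, hal⟩ : ∃ a l, (List.ofFn w).map f.1 = a :: l := by
      rw [List.ofFn_succ, List.map_cons]
      exact ⟨_, _, rfl⟩
    refine ⟨coef c (a :: l), a, l.getLastD a, coef_nonneg h0 _, ?_, ?_⟩
    · apply h f _ a l hal
      intro i hi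
      apply hz
      rw [List.mem_map]
      exact ⟨w i, by rw [List.mem_ofFn]; exact ⟨i, rfl⟩, hi⟩
    · rw [hal, prod_M h0 h1]

lemma word_le_one {c : ℝ} (h0 : 0 < c) (h1 : c < 1) (n k m : ℕ) (w : Fin (m + 1) → Fin n) :
    ‖word (blk (𝕜 := 𝕜) c n k) w‖ ≤ 1 :=
  norm_word_le h0 h1 n k m w 1 zero_le_one fun _ _ _ _ _ => coef_le_one h0 h1 _

lemma nonconst {n k m : ℕ} (w : Fin (m + 1) → Fin n) (hw : k < #(univ.image w))
    (f : Col n k) (hf : ∀ i, f.1 (w i) ≠ 0) (a : Fin 3) (l : List (Fin 3))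
    (hal : (List.ofFn w).map f.1 = a :: l) : ∃ b ∈ l, b ≠ a := by
  by_contra hc
  push Not at hc
  have hall : ∀ i, f.1 (w i) = a := by
    intro i
    have : f.1 (w i) ∈ a :: l := by
      rw [← hal, List.mem_map]
      exact ⟨w i, by rw [List.mem_ofFn]; exact ⟨i, rfl⟩, rfl⟩
    rcases List.mem_cons.1 this with h | h
    · exact h
    · exact hc _ h
  have ha : a = 1 ∨ a = 2 := by
    have := hf 0
    rw [hall 0] at this
    fin_cases a
    · exact absurd rfl this
    · left; rfl
    · right; rfl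
  have hsub : univ.image w ⊆ ({x | f.1 x = a} : Finset (Fin n)) := by
    intro x hx
    rw [mem_image] at hx
    obtain ⟨i, _, rfl⟩ := hx
    simp [hall i]
  have hcard := card_le_card hsub
  rcases ha with rfl | rfl
  · exact absurd (le_trans hcard f.2.1) (by omega)
  · exact absurd (le_trans hcard f.2.2) (by omega)

lemma word_le {c : ℝ} (h0 : 0 < c) (h1 : c < 1) (n k m : ℕ) (w : Fin (m + 1) → Fin n)
    (hw : k < #(univ.image w)) : ‖word (blk (𝕜 := 𝕜) c n k) w‖ ≤ c :=
  norm_word_le h0 h1 n k m w c h0.le fun f hf a l hal =>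
    coef_le h0 h1 l a (nonconst w hw f hf a l hal)

lemma word_le_sq {c : ℝ} (h0 : 0 < c) (h1 : c < 1) (n k m : ℕ) (w : Fin (m + 1) → Fin n)
    (hw : k < #(univ.image w)) (hcl : w (Fin.last m) = w 0) :
    ‖word (blk (𝕜 := 𝕜) c n k) w‖ ≤ c ^ 2 := by
  refine norm_word_le h0 h1 n k m w (c ^ 2) (by positivity) fun f hf a l hal =>
    coef_le_sq h0 h1 l a (nonconst w hw f hf a l hal) ?_
  have h2 : (a :: l).getLast? = some (f.1 (w (Fin.last m))) := by
    rw [← hal, List.ofFn_succ', List.map_concat, List.concat_eq_append, List.getLast?_append]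
    simp
  have h3 : a = f.1 (w 0) := by
    rw [List.ofFn_succ, List.map_cons] at hal
    exact (List.cons.inj hal).1.symm
  rw [List.getLast?_cons] at h2
  have h4 := Option.some.inj h2
  rw [hcl, ← h3] at h4
  rw [List.getLastD_eq_getLast?]
  exact h4

/-- every word in distinct letters has norm at least `c` -/
lemma le_word {c : ℝ} (h0 : 0 < c) (h1 : c < 1) (n k m : ℕ) (hk : 1 ≤ k) (hkm : k < m)
    (hm : m ≤ 2 * k) (w : Fin m → Fin n) (hw : Function.Injective w) :
    c ≤ ‖word (blk (𝕜 := 𝕜) c n k) w‖ := by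
  classical
  -- the colouring
  set f : Fin n → Fin 3 := fun x =>
    if ∃ i : Fin m, w i = x ∧ i.1 < k then 1 else if ∃ i : Fin m, w i = x then 2 else 0 with hf
  have hfw : ∀ i : Fin m, f (w i) = if i.1 < k then 1 else 2 := by
    intro i
    by_cases hi : i.1 < k
    · have : ∃ j : Fin m, w j = w i ∧ j.1 < k := ⟨i, rfl, hi⟩
      simp [hf, hi, this]
    · have hn : ¬ ∃ j : Fin m, w j = w i ∧ j.1 < k := by
        rintro ⟨j, hj, hjk⟩
        rw [hw hj] at hjk
        exact hi hjk
      have he : ∃ j : Fin m, w j = w i := ⟨i, rfl⟩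
      simp [hf, hi, hn, he]
  have hc1 : #{x | f x = 1} ≤ k := by
    have hsub : ({x | f x = 1} : Finset (Fin n)) ⊆
        (({i : Fin m | i.1 < k} : Finset (Fin m)).image w) := by
      intro x hx
      rw [mem_filter] at hx
      have hx := hx.2
      rw [mem_image]
      by_cases h : ∃ i : Fin m, w i = x ∧ i.1 < k
      · obtain ⟨i, hi, hik⟩ := h
        exact ⟨i, by simp [hik], hi⟩
      · simp only [hf, h, if_false] at hx
        split_ifs at hx <;> simp at hx
    refine le_trans (card_le_card hsub) (le_trans card_image_le ?_)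
    rw [Fin.card_filter_val_lt]
    exact min_le_right _ _
  have hc2 : #{x | f x = 2} ≤ k := by
    have hsub : ({x | f x = 2} : Finset (Fin n)) ⊆
        (({i : Fin m | k ≤ i.1} : Finset (Fin m)).image w) := by
      intro x hx
      rw [mem_filter] at hx
      have hx := hx.2
      rw [mem_image]
      by_cases h : ∃ i : Fin m, w i = x ∧ i.1 < k
      · simp [hf, h] at hx
      · simp only [hf, h, if_false] at hx
        by_cases h' : ∃ i : Fin m, w i = x
        · obtain ⟨i, hi⟩ := h'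
          refine ⟨i, ?_, hi⟩
          rw [mem_filter]
          refine ⟨mem_univ _, ?_⟩
          by_contra hlt
          exact h ⟨i, hi, by omega⟩
        · simp [h'] at hx
    refine le_trans (card_le_card hsub) (le_trans card_image_le ?_)
    have h5 : ({i : Fin m | k ≤ i.1} : Finset (Fin m)) =
        univ \ ({i : Fin m | i.1 < k} : Finset (Fin m)) := by
      ext i; simp
    rw [h5, card_sdiff_of_subset (subset_univ _), Fin.card_filter_val_lt, card_univ,
      Fintype.card_fin]
    omega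
  obtain ⟨s, rfl⟩ : ∃ s, k = s + 1 := ⟨k - 1, by omega⟩
  obtain ⟨t, ht⟩ : ∃ t, m - (s + 1) = t + 1 := ⟨m - (s + 1) - 1, by omega⟩
  have hlist : (List.ofFn w).map f = List.replicate (s + 1) 1 ++ List.replicate (t + 1) 2 := by
    apply List.ext_getElem
    · simp; omega
    · intro i hi1 hi2
      rw [List.getElem_map, List.getElem_ofFn, hfw, List.getElem_append]
      simp only [List.length_replicate, List.getElem_replicate]
      split_ifs <;> rfl
  have hblock : ((((List.ofFn w).map f).map (M (𝕜 := 𝕜) c)).prod) =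
      ((c : ℝ) : 𝕜) • vecMulVec (vec c 1) (star (vec c 2)) := by
    rw [hlist]
    rw [List.replicate_succ, List.cons_append, prod_M h0 h1]
    rw [← List.cons_append, ← List.replicate_succ, coef_two]
    congr 4
    rw [List.getLastD_eq_getLast?, List.getLast?_append]
    simp [List.getLast?_replicate]
  rw [word_blk]
  exact le_norm_block h0 h1 _ (⟨f, hc1, hc2⟩ : Col n (s + 1)) c h0.le hblock

/-- number of words with few letters -/
lemma card_few (n k m : ℕ) (hkn : k ≤ n) :
    #{w : Fin m → Fin n | #(univ.image w) ≤ k} ≤ n.choose k * k ^ m := by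
  classical
  have hsub : ({w : Fin m → Fin n | #(univ.image w) ≤ k} : Finset (Fin m → Fin n)) ⊆
      (powersetCard k (univ : Finset (Fin n))).biUnion
        (fun S => Fintype.piFinset (fun _ : Fin m => S)) := by
    intro w hw
    rw [mem_filter] at hw
    obtain ⟨S, hS1, hS2⟩ := exists_superset_card_eq hw.2 (by simpa using hkn)
    rw [mem_biUnion]
    refine ⟨S, by rw [mem_powersetCard]; exact ⟨subset_univ _, hS2⟩, ?_⟩
    rw [Fintype.mem_piFinset]
    intro i
    exact hS1 (mem_image_of_mem _ (mem_univ _))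
  refine le_trans (card_le_card hsub) (le_trans card_biUnion_le ?_)
  rw [sum_congr rfl (g := fun _ => k ^ m)]
  · rw [sum_const, card_powersetCard, card_univ, Fintype.card_fin, smul_eq_mul]
  · intro S hS
    rw [Fintype.card_piFinset]
    rw [mem_powersetCard] at hS
    simp [hS.2]

/-- number of closed words -/
lemma card_closed (n m : ℕ) (hm : 1 ≤ m) :
    n ^ m ≤ #{w : Fin (m + 1) → Fin n | w (Fin.last m) = w 0} := by
  classical
  obtain ⟨m, rfl⟩ : ∃ m', m = m' + 1 := ⟨m - 1, by omega⟩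
  have h : #(univ : Finset (Fin (m + 1) → Fin n)) = n ^ (m + 1) := by simp
  rw [← h]
  refine card_le_card_of_injOn (fun u => Fin.snoc u (u 0)) ?_ ?_
  · intro u _
    simp only [coe_filter, mem_univ, true_and, Set.mem_ofPred_eq]
    rw [Fin.snoc_last]
    have : (0 : Fin (m + 1 + 1)) = Fin.castSucc 0 := rfl
    rw [this, Fin.snoc_castSucc]
  · intro u _ v _ huv
    have := congrArg Fin.init huv
    simpa using this

lemma word_submatrix {n m : ℕ} {α β : Type*} [Fintype α] [DecidableEq α] [Fintype β]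
    [DecidableEq β] (B : Fin n → Matrix α α 𝕜) (e : β ≃ α) (w : Fin m → Fin n) :
    word (fun j => (B j).submatrix e e) w = (word B w).submatrix e e := by
  have key : ∀ L : List (Fin n), (L.map (fun j => (B j).submatrix e e)).prod =
      ((L.map B).prod).submatrix e e := by
    intro L
    induction L with
    | nil => simp
    | cons a l ih =>
      simp only [List.map_cons, List.prod_cons]
      rw [ih, Matrix.submatrix_mul_equiv]
  have h1 := key (List.ofFn w)
  rw [List.map_ofFn, List.map_ofFn] at h1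
  exact h1

lemma blk_herm {c : ℝ} (n k : ℕ) (j : Fin n) : (blk (𝕜 := 𝕜) c n k j)ᴴ = blk c n k j := by
  rw [blk, blockDiagonal_conjTranspose]
  simp only [M_herm]

lemma blk_idem {c : ℝ} (h0 : 0 < c) (h1 : c < 1) (n k : ℕ) (j : Fin n) :
    blk (𝕜 := 𝕜) c n k j * blk c n k j = blk c n k j := by
  rw [blk, ← blockDiagonal_mul]
  simp only [M_idem h0 h1]

open Classical in
/-- The general criterion: the inequality `W_m ≥ D_m` fails as soon as few words use at most
`k` letters, where `m / 2 ≤ k < m`. -/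
theorem criterion (𝕜 : Type*) [RCLike 𝕜] (m n k : ℕ) (hk : 1 ≤ k) (hkm : k < m) (hm : m ≤ 2 * k)
    (hn : m ≤ n) (hcount : 2 * #{w : Fin m → Fin n | #(univ.image w) ≤ k} < n ^ (m - 1)) :
    ∃ d : ℕ, 1 ≤ d ∧ ∃ A : Fin n → Matrix (Fin d) (Fin d) 𝕜,
      (∀ j, (A j).PosSemidef ∧ A j * A j = A j) ∧ W m A < D m A := by
  obtain ⟨m, rfl⟩ : ∃ m', m = m' + 1 := ⟨m - 1, by omega⟩
  rw [Nat.add_sub_cancel] at hcount
  set a := #{w : Fin (m + 1) → Fin n | #(univ.image w) ≤ k} with ha
  -- choice of c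
  obtain ⟨c, h0, h1, hc⟩ : ∃ c : ℝ, 0 < c ∧ c < 1 ∧ (a : ℝ) < c * ((n : ℝ) ^ m - a) := by
    have h2 : (2 : ℝ) * a < (n : ℝ) ^ m := by exact_mod_cast hcount
    have ha0 : (0 : ℝ) ≤ a := Nat.cast_nonneg _
    have h3 : (0 : ℝ) < (n : ℝ) ^ m - a := by linarith
    have h4 : (a : ℝ) / ((n : ℝ) ^ m - a) < 1 := by rw [div_lt_one h3]; linarith
    have h5 : (0 : ℝ) ≤ (a : ℝ) / ((n : ℝ) ^ m - a) := by positivity
    obtain ⟨c, hc1, hc2⟩ := exists_between h4
    exact ⟨c, lt_of_le_of_lt h5 hc1, hc2, by rwa [div_lt_iff₀ h3] at hc1⟩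
  -- the matrices
  let e : Fin (Fintype.card (Fin 2 × Col n k)) ≃ Fin 2 × Col n k :=
    (Fintype.equivFin (Fin 2 × Col n k)).symm
  let A : Fin n → Matrix (Fin (Fintype.card (Fin 2 × Col n k)))
    (Fin (Fintype.card (Fin 2 × Col n k))) 𝕜 := fun j => (blk c n k j).submatrix e e
  have hnorm : ∀ w : Fin (m + 1) → Fin n, ‖word A w‖ = ‖word (blk (𝕜 := 𝕜) c n k) w‖ := by
    intro w
    rw [word_submatrix, norm_submatrix_equiv]
  refine ⟨Fintype.card (Fin 2 × Col n k), ?_, A, ?_, ?_⟩
  · have : Nonempty (Col n k) := ⟨⟨fun _ => 0, by simp, by simp⟩⟩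
    exact Fintype.card_pos
  · intro j
    have hid : A j * A j = A j := by
      change (blk c n k j).submatrix e e * (blk c n k j).submatrix e e = _
      rw [Matrix.submatrix_mul_equiv, blk_idem h0 h1]
    have hhe : (A j)ᴴ = A j := by
      change ((blk c n k j).submatrix e e)ᴴ = _
      rw [Matrix.conjTranspose_submatrix, blk_herm]
    refine ⟨?_, hid⟩
    rw [← hid]
    nth_rewrite 1 [← hhe]
    exact posSemidef_conjTranspose_mul_self _
  · -- lower bound for D
    have hD : c ≤ D (m + 1) A := by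
      have hcard : #{w : Fin (m + 1) → Fin n | Function.Injective w} = n.descFactorial (m + 1) := by
        rw [← Fintype.card_subtype]
        rw [Fintype.card_congr (Equiv.subtypeInjectiveEquivEmbedding (Fin (m + 1)) (Fin n))]
        simp
      have hsum : (n.descFactorial (m + 1) : ℝ) * c ≤
          ∑ w : Fin (m + 1) → Fin n with Function.Injective w, ‖word A w‖ := by
        rw [← hcard, ← nsmul_eq_mul]
        apply card_nsmul_le_sum
        intro w hw
        rw [mem_filter] at hw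
        rw [hnorm]
        exact le_word h0 h1 n k (m + 1) hk hkm hm w hw.2
      have hfac : ((n - (m + 1)).factorial : ℝ) * (n.descFactorial (m + 1) : ℝ) = n.factorial := by
        exact_mod_cast Nat.factorial_mul_descFactorial hn
      have hpos : (0 : ℝ) < n.factorial := by exact_mod_cast Nat.factorial_pos n
      unfold D
      rw [div_mul_eq_mul_div, le_div_iff₀ hpos, ← hfac]
      have hpos2 : (0 : ℝ) ≤ ((n - (m + 1)).factorial : ℝ) := Nat.cast_nonneg _
      nlinarith
    refine lt_of_lt_of_le ?_ hD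
    -- upper bound for W
    have hnpos : (0 : ℝ) < n := by exact_mod_cast (by omega : 0 < n)
    have hWs : ∑ w : Fin (m + 1) → Fin n, ‖word A w‖ < c * (n : ℝ) ^ (m + 1) := by
      set b : (Fin (m + 1) → Fin n) → ℝ := fun w =>
        c + (if #(univ.image w) ≤ k then (1 - c) + (c - c ^ 2) else 0)
          - (if w (Fin.last m) = w 0 then c - c ^ 2 else 0) with hb
      have hle : ∀ w : Fin (m + 1) → Fin n, ‖word A w‖ ≤ b w := by
        intro w
        rw [hnorm]
        by_cases hw : #(univ.image w) ≤ k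
        · have h6 := word_le_one (𝕜 := 𝕜) h0 h1 n k m w
          simp only [hb, hw, if_true]
          split_ifs <;> nlinarith
        · have hw' : k < #(univ.image w) := by omega
          by_cases hcl : w (Fin.last m) = w 0
          · have h6 := word_le_sq (𝕜 := 𝕜) h0 h1 n k m w hw' hcl
            simp only [hb, hw, hcl, if_true, if_false]
            linarith
          · have h6 := word_le (𝕜 := 𝕜) h0 h1 n k m w hw'
            simp only [hb, hw, hcl, if_false]
            linarith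
      refine lt_of_le_of_lt (sum_le_sum fun w _ => hle w) ?_
      have hsb : ∑ w, b w = c * (n : ℝ) ^ (m + 1) + ((1 - c) + (c - c ^ 2)) * a
          - (c - c ^ 2) * #{w : Fin (m + 1) → Fin n | w (Fin.last m) = w 0} := by
        simp only [hb, sum_sub_distrib, sum_add_distrib, sum_const, ← sum_filter, nsmul_eq_mul]
        rw [← ha]
        simp only [card_univ, Fintype.card_fun, Fintype.card_fin, Nat.cast_pow]
        ring
      rw [hsb]
      have hcl : ((n : ℝ)) ^ m ≤ #{w : Fin (m + 1) → Fin n | w (Fin.last m) = w 0} := by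
        have := card_closed n m (by omega)
        have h7 : n ^ m ≤ #{w : Fin (m + 1) → Fin n | w (Fin.last m) = w 0} := by
          convert this
        exact_mod_cast h7
      have hcc : 0 < c - c ^ 2 := by nlinarith
      nlinarith
    unfold W
    rw [one_div, inv_mul_lt_iff₀ (by positivity)]
    linarith

/-- double counting bound for the number of words with few letters -/
lemma few_mul_le (n k m : ℕ) :
    #{w : Fin m → Fin n | #(univ.image w) ≤ k} * 2 ^ (n - k) ≤
      ∑ S : Finset (Fin n), (#S) ^ m := by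
  classical
  have h1 : ∀ S : Finset (Fin n), (#S) ^ m = #{w : Fin m → Fin n | univ.image w ⊆ S} := by
    intro S
    have h2 : ({w : Fin m → Fin n | univ.image w ⊆ S} : Finset (Fin m → Fin n)) =
        Fintype.piFinset (fun _ : Fin m => S) := by
      ext w
      simp [Finset.subset_iff]
    rw [h2, Fintype.card_piFinset]
    simp
  have h3 : ∑ S : Finset (Fin n), (#S) ^ m =
      ∑ w : Fin m → Fin n, #{S : Finset (Fin n) | univ.image w ⊆ S} := by
    rw [sum_congr rfl fun S _ => h1 S]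
    simp only [card_filter]
    rw [sum_comm]
  have h4 : ∀ w : Fin m → Fin n, #{S : Finset (Fin n) | univ.image w ⊆ S} =
      2 ^ (n - #(univ.image w)) := by
    intro w
    have h5 : ({S : Finset (Fin n) | univ.image w ⊆ S} : Finset (Finset (Fin n))) =
        Finset.Icc (univ.image w) univ := by
      ext S
      simp [Finset.mem_Icc]
    rw [h5, card_Icc_finset (subset_univ _)]
    simp
  rw [h3]
  calc #{w : Fin m → Fin n | #(univ.image w) ≤ k} * 2 ^ (n - k)
      = ∑ w : Fin m → Fin n with #(univ.image w) ≤ k, 2 ^ (n - k) := by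
        rw [sum_const, smul_eq_mul]
    _ ≤ ∑ w : Fin m → Fin n with #(univ.image w) ≤ k,
          #{S : Finset (Fin n) | univ.image w ⊆ S} := by
        apply sum_le_sum
        intro w hw
        rw [mem_filter] at hw
        rw [h4]
        apply Nat.pow_le_pow_right (by norm_num)
        omega
    _ ≤ _ := by
        apply sum_le_sum_of_subset_of_nonneg (filter_subset _ _)
        intros; exact Nat.zero_le _

lemma sum_card_pow_le (n m : ℕ) (hn : 1 ≤ n) :
    (∑ S : Finset (Fin n), ((#S : ℕ) : ℝ) ^ m) ≤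
      (n : ℝ) ^ m * (1 + Real.exp (-(m : ℝ) / n)) ^ n := by
  have hn0 : (0 : ℝ) < n := by exact_mod_cast hn
  set q := Real.exp (-(m : ℝ) / n) with hq
  have h1 : ∀ S : Finset (Fin n), ((#S : ℕ) : ℝ) ^ m ≤ (n : ℝ) ^ m * (q ^ (n - #S)) := by
    intro S
    have hS : #S ≤ n := by simpa using card_le_univ S
    have h2 : ((#S : ℕ) : ℝ) ≤ n * Real.exp (-((n - #S : ℕ) : ℝ) / n) := by
      have h3 := Real.add_one_le_exp (-((n - #S : ℕ) : ℝ) / n)
      have h4 : (n : ℝ) * (-((n - #S : ℕ) : ℝ) / n + 1) = #S := by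
        rw [Nat.cast_sub hS]; field_simp; ring
      nlinarith
    calc ((#S : ℕ) : ℝ) ^ m ≤ (n * Real.exp (-((n - #S : ℕ) : ℝ) / n)) ^ m :=
          pow_le_pow_left₀ (Nat.cast_nonneg _) h2 m
      _ = (n : ℝ) ^ m * (q ^ (n - #S)) := by
          rw [mul_pow, hq, ← Real.exp_nat_mul, ← Real.exp_nat_mul]
          congr 2
          ring
  calc (∑ S : Finset (Fin n), ((#S : ℕ) : ℝ) ^ m)
      ≤ ∑ S : Finset (Fin n), (n : ℝ) ^ m * (q ^ (n - #S)) := sum_le_sum fun S _ => h1 S
    _ = (n : ℝ) ^ m * (1 + q) ^ n := by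
        rw [← mul_sum]
        congr 1
        have := Fintype.sum_pow_mul_eq_add_pow (Fin n) (1 : ℝ) q
        simpa using this

lemma num_aux (m : ℕ) (hm : 250 ≤ m) :
    (32 : ℝ) * (m : ℝ) ^ 2 * (2 * (68395 / 100000 : ℝ) ^ 2) ^ m < 1 := by
  induction m, hm using Nat.le_induction with
  | base => norm_num
  | succ p hp ih =>
    have hp' : (250 : ℝ) ≤ p := by exact_mod_cast hp
    rw [pow_succ _ p]
    push_cast
    have h15 : ((p : ℝ) + 1) ^ 2 * (2 * (68395 / 100000 : ℝ) ^ 2) ≤ (p : ℝ) ^ 2 := by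
      nlinarith
    have h16 : (0 : ℝ) ≤ (2 * (68395 / 100000 : ℝ) ^ 2) ^ p := by positivity
    calc 32 * ((p : ℝ) + 1) ^ 2 * ((2 * (68395 / 100000 : ℝ) ^ 2) ^ p *
          (2 * (68395 / 100000 : ℝ) ^ 2))
        = 32 * (((p : ℝ) + 1) ^ 2 * (2 * (68395 / 100000 : ℝ) ^ 2)) *
          (2 * (68395 / 100000 : ℝ) ^ 2) ^ p := by ring
      _ ≤ 32 * (p : ℝ) ^ 2 * (2 * (68395 / 100000 : ℝ) ^ 2) ^ p := by gcongr
      _ < 1 := ih

/-- `2 · #few < n^(m-1)` when `m ≤ n ≤ 2 m`, `m ≥ 250` -/
lemma few_lt_small (m n : ℕ) (hm : 250 ≤ m) (hmn : m ≤ n) (hn2 : n ≤ 2 * m) :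
    2 * #{w : Fin m → Fin n | #(univ.image w) ≤ (m + 1) / 2} < n ^ (m - 1) := by
  set k := (m + 1) / 2 with hk
  set F := #{w : Fin m → Fin n | #(univ.image w) ≤ k} with hF
  have hkn : k ≤ n := by omega
  have hn0 : (0 : ℝ) < n := by exact_mod_cast (by omega : 0 < n)
  have hm0 : (0 : ℝ) < m := by exact_mod_cast (by omega : 0 < m)
  have h1 : (F : ℝ) * 2 ^ (n - k) ≤ (n : ℝ) ^ m * (1 + Real.exp (-(m : ℝ) / n)) ^ n := by
    refine le_trans ?_ (sum_card_pow_le n m (by omega))
    exact_mod_cast few_mul_le n k m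
  -- power mean
  set q := Real.exp (-(m : ℝ) / n) with hq
  have hq0 : 0 < q := Real.exp_pos _
  have hpm : ((1 + q) / 2) ^ n ≤ ((1 + Real.exp (-1)) / 2) ^ m := by
    have hp : (1 : ℝ) ≤ (n : ℝ) / m := by
      rw [le_div_iff₀ hm0]; simpa using (by exact_mod_cast hmn : (m : ℝ) ≤ n)
    have h2 := (convexOn_rpow hp).2 (Set.mem_Ici.2 zero_le_one) (Set.mem_Ici.2 hq0.le)
      (by norm_num : (0 : ℝ) ≤ 1 / 2) (by norm_num : (0 : ℝ) ≤ 1 / 2) (by norm_num)
    simp only [smul_eq_mul] at h2
    have h3 : q ^ ((n : ℝ) / m) = Real.exp (-1) := by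
      rw [hq, ← Real.exp_mul]
      congr 1
      field_simp
    rw [h3, Real.one_rpow] at h2
    have h4 : (1 / 2 * 1 + 1 / 2 * q : ℝ) = (1 + q) / 2 := by ring
    have h5 : (1 / 2 * 1 + 1 / 2 * Real.exp (-1) : ℝ) = (1 + Real.exp (-1)) / 2 := by ring
    rw [h4, h5] at h2
    have h6 : (0 : ℝ) ≤ (1 + q) / 2 := by positivity
    have h7 := pow_le_pow_left₀ (Real.rpow_nonneg h6 _) h2 m
    rw [← Real.rpow_natCast, ← Real.rpow_mul h6] at h7
    have h8 : (n : ℝ) / m * m = n := by field_simp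
    rw [h8, Real.rpow_natCast] at h7
    exact h7
  have hexp : (1 + Real.exp (-1)) / 2 ≤ 68395 / 100000 := by
    have := Real.exp_neg_one_lt_d9
    linarith
  have hpm2 : ((1 + q) / 2) ^ n ≤ (68395 / 100000 : ℝ) ^ m :=
    le_trans hpm (pow_le_pow_left₀ (by positivity) hexp m)
  -- F ≤ n^m 2^k (0.68395)^m
  have h9 : (F : ℝ) ≤ (n : ℝ) ^ m * (2 ^ k * (68395 / 100000 : ℝ) ^ m) := by
    have h10 : (2 : ℝ) ^ n = 2 ^ (n - k) * 2 ^ k := by
      rw [← pow_add]; congr 1; omega
    have h11 : (F : ℝ) * 2 ^ (n - k) ≤ (n : ℝ) ^ m * ((68395 / 100000 : ℝ) ^ m * 2 ^ n) := by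
      refine le_trans h1 ?_
      have h12 : (1 + q) ^ n = ((1 + q) / 2) ^ n * 2 ^ n := by
        rw [← mul_pow]; congr 1; ring
      rw [h12]
      gcongr
    rw [h10] at h11
    have h13 : (0 : ℝ) < 2 ^ (n - k) := by positivity
    have h14 : (n : ℝ) ^ m * ((68395 / 100000 : ℝ) ^ m * (2 ^ (n - k) * 2 ^ k)) =
        ((n : ℝ) ^ m * (2 ^ k * (68395 / 100000 : ℝ) ^ m)) * 2 ^ (n - k) := by ring
    rw [h14] at h11
    exact le_of_mul_le_mul_right h11 h13
  -- numerical inequality: (4 m)^2 2^(m+1) 0.68395^(2m) < 1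
  have hnum := num_aux m hm
  have h17 : (4 * (m : ℝ) * (2 ^ k * (68395 / 100000 : ℝ) ^ m)) < 1 := by
    by_contra hcon
    push Not at hcon
    have h18 : (1 : ℝ) ≤ (4 * (m : ℝ) * (2 ^ k * (68395 / 100000 : ℝ) ^ m)) ^ 2 := by
      nlinarith
    have h19 : (4 * (m : ℝ) * (2 ^ k * (68395 / 100000 : ℝ) ^ m)) ^ 2 ≤
        (32 : ℝ) * (m : ℝ) ^ 2 * (2 * (68395 / 100000 : ℝ) ^ 2) ^ m := by
      have h20 : (2 : ℝ) ^ (2 * k) ≤ 2 ^ (m + 1) := by
        apply pow_le_pow_right₀ (by norm_num)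
        omega
      have h21 : (4 * (m : ℝ) * (2 ^ k * (68395 / 100000 : ℝ) ^ m)) ^ 2 =
          16 * (m : ℝ) ^ 2 * ((68395 / 100000 : ℝ) ^ 2) ^ m * 2 ^ (2 * k) := by
        rw [← pow_mul, mul_comm 2 m]
        ring
      have h22 : (32 : ℝ) * (m : ℝ) ^ 2 * (2 * (68395 / 100000 : ℝ) ^ 2) ^ m =
          16 * (m : ℝ) ^ 2 * ((68395 / 100000 : ℝ) ^ 2) ^ m * 2 ^ (m + 1) := by
        rw [mul_pow, pow_succ]; ring
      rw [h21, h22]
      gcongr
    linarith
  -- conclusion
  have h23 : (2 : ℝ) * F < (n : ℝ) ^ (m - 1) := by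
    have h24 : (n : ℝ) ^ m = n ^ (m - 1) * n := by
      rw [← pow_succ]; congr 1; omega
    have h25 : (0 : ℝ) < (n : ℝ) ^ (m - 1) := by positivity
    have h26 : (n : ℝ) ≤ 2 * m := by exact_mod_cast hn2
    have h27 : (0 : ℝ) < 2 ^ k * (68395 / 100000 : ℝ) ^ m := by positivity
    calc (2 : ℝ) * F ≤ 2 * ((n : ℝ) ^ m * (2 ^ k * (68395 / 100000 : ℝ) ^ m)) := by linarith
      _ = (n : ℝ) ^ (m - 1) * (2 * n * (2 ^ k * (68395 / 100000 : ℝ) ^ m)) := by
          rw [h24]; ring
      _ ≤ (n : ℝ) ^ (m - 1) * (4 * m * (2 ^ k * (68395 / 100000 : ℝ) ^ m)) := by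
          apply mul_le_mul_of_nonneg_left _ h25.le
          apply mul_le_mul_of_nonneg_right _ h27.le
          linarith
      _ < (n : ℝ) ^ (m - 1) * 1 := by
          apply mul_lt_mul_of_pos_left h17 h25
      _ = _ := mul_one _
  exact_mod_cast h23

/-- `2 · #few < n^(m-1)` when `n ≥ 2 m`, `m ≥ 250` -/
lemma few_lt_large (m n : ℕ) (hm : 250 ≤ m) (hn2 : 2 * m ≤ n) :
    2 * #{w : Fin m → Fin n | #(univ.image w) ≤ (m + 1) / 2} < n ^ (m - 1) := by
  set k := (m + 1) / 2 with hk
  have hkn : k ≤ n := by omega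
  have hk1 : 125 ≤ k := by omega
  refine lt_of_le_of_lt (Nat.mul_le_mul_left 2 (card_few n k m hkn)) ?_
  have hn0 : (0 : ℝ) < n := by exact_mod_cast (by omega : 0 < n)
  have hk0 : (0 : ℝ) < k := by exact_mod_cast (by omega : 0 < k)
  have hkn' : (k : ℝ) ≤ 251 / 1000 * n := by
    have h1 : (1000 : ℝ) * k ≤ 251 * n := by
      have : 1000 * k ≤ 251 * n := by omega
      exact_mod_cast this
    linarith
  have h2 : ((n.choose k : ℕ) : ℝ) * (k : ℝ) ^ k ≤ (n : ℝ) ^ k * 3 ^ k := by
    have h3 := Nat.choose_le_pow_div (α := ℝ) k n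
    have h4 := Real.pow_div_factorial_le_exp (k : ℝ) hk0.le k
    have h5 : Real.exp (k : ℝ) ≤ 3 ^ k := by
      rw [← Real.exp_one_pow]
      apply pow_le_pow_left₀ (Real.exp_pos _).le
      have := Real.exp_one_lt_d9
      linarith
    calc ((n.choose k : ℕ) : ℝ) * (k : ℝ) ^ k ≤ ((n : ℝ) ^ k / k.factorial) * (k : ℝ) ^ k := by
          gcongr
      _ = (n : ℝ) ^ k * ((k : ℝ) ^ k / k.factorial) := by ring
      _ ≤ (n : ℝ) ^ k * 3 ^ k := by
          gcongr
          exact le_trans h4 h5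
  have h6 : (k : ℝ) ^ (m - 1 - k) ≤ (251 / 1000 * n) ^ (m - 1 - k) :=
    pow_le_pow_left₀ hk0.le hkn' _
  have hnum : ∀ p : ℕ, 125 ≤ p → 2 * (p : ℝ) * 3 ^ p * (251 / 1000 : ℝ) ^ (p - 2) < 1 := by
    intro p hp
    induction p, hp using Nat.le_induction with
    | base => norm_num
    | succ p hp ih =>
      have hp' : (125 : ℝ) ≤ p := by exact_mod_cast hp
      obtain ⟨r, rfl⟩ : ∃ r, p = r + 2 := ⟨p - 2, by omega⟩
      have e1 : r + 2 + 1 - 2 = r + 1 := by omega
      have e2 : r + 2 - 2 = r := by omega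
      rw [e1]
      rw [e2] at ih
      have h7 : (0 : ℝ) < 3 ^ (r + 2) * (251 / 1000 : ℝ) ^ r := by positivity
      have h8 : 2 * ((r + 2 + 1 : ℕ) : ℝ) * 3 ^ (r + 2 + 1) * (251 / 1000 : ℝ) ^ (r + 1) =
          (((r + 2 + 1 : ℕ) : ℝ) * (753 / 1000)) * 2 * (3 ^ (r + 2) * (251 / 1000 : ℝ) ^ r) := by
        rw [pow_succ (3 : ℝ) (r + 2), pow_succ (251 / 1000 : ℝ) r]; ring
      rw [h8]
      have h9 : (((r + 2 + 1 : ℕ) : ℝ) * (753 / 1000)) ≤ ((r + 2 : ℕ) : ℝ) := by
        push_cast at hp' ⊢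
        linarith
      have h10 : 2 * ((r + 2 : ℕ) : ℝ) * 3 ^ (r + 2) * (251 / 1000 : ℝ) ^ r =
          ((r + 2 : ℕ) : ℝ) * 2 * (3 ^ (r + 2) * (251 / 1000 : ℝ) ^ r) := by ring
      rw [h10] at ih
      refine lt_of_le_of_lt ?_ ih
      gcongr
  have hmk : (251 / 1000 : ℝ) ^ (m - 1 - k) ≤ (251 / 1000 : ℝ) ^ (k - 2) :=
    pow_le_pow_of_le_one (by norm_num) (by norm_num) (by omega)
  have hfinal : (2 : ℝ) * (((n.choose k : ℕ) : ℝ) * (k : ℝ) ^ m) < (n : ℝ) ^ (m - 1) := by
    have e1 : (k : ℝ) ^ m = (k : ℝ) ^ k * ((k : ℝ) * (k : ℝ) ^ (m - 1 - k)) := by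
      rw [← pow_succ', ← pow_add]; congr 1; omega
    have e2 : (n : ℝ) ^ (m - 1) = (n : ℝ) ^ k * (n : ℝ) ^ (m - 1 - k) := by
      rw [← pow_add]; congr 1; omega
    calc (2 : ℝ) * (((n.choose k : ℕ) : ℝ) * (k : ℝ) ^ m)
        = 2 * (((n.choose k : ℕ) : ℝ) * (k : ℝ) ^ k) * ((k : ℝ) * (k : ℝ) ^ (m - 1 - k)) := by
          rw [e1]; ring
      _ ≤ 2 * ((n : ℝ) ^ k * 3 ^ k) * ((k : ℝ) * (251 / 1000 * n) ^ (m - 1 - k)) := by
          gcongr
      _ = ((n : ℝ) ^ k * (n : ℝ) ^ (m - 1 - k)) *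
            (2 * k * 3 ^ k * (251 / 1000 : ℝ) ^ (m - 1 - k)) := by
          rw [mul_pow]; ring
      _ ≤ ((n : ℝ) ^ k * (n : ℝ) ^ (m - 1 - k)) *
            (2 * k * 3 ^ k * (251 / 1000 : ℝ) ^ (k - 2)) := by
          gcongr
      _ < ((n : ℝ) ^ k * (n : ℝ) ^ (m - 1 - k)) * 1 := by
          apply mul_lt_mul_of_pos_left (hnum k hk1)
          positivity
      _ = _ := by rw [e2, mul_one]
  exact_mod_cast hfinal

/-- `2 · #few < n^(m-1)` when `m ≥ 4`, `n ≥ m ^ m` -/
lemma few_lt_four (m n : ℕ) (hm : 4 ≤ m) (hn : m ^ m ≤ n) :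
    2 * #{w : Fin m → Fin n | #(univ.image w) ≤ (m + 1) / 2} < n ^ (m - 1) := by
  set k := (m + 1) / 2 with hk
  have hmm : m ≤ m ^ m := Nat.le_self_pow (by omega) m
  have hkn : k ≤ n := by omega
  refine lt_of_le_of_lt (Nat.mul_le_mul_left 2 (card_few n k m hkn)) ?_
  have h1 : 2 * n.choose k ≤ n ^ k := by
    have h2 : k.factorial * n.choose k ≤ n ^ k := by
      rw [← Nat.descFactorial_eq_factorial_mul_choose]
      exact Nat.descFactorial_le_pow n k
    have h3 : 2 ≤ k.factorial := by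
      have : Nat.factorial 2 ≤ k.factorial := Nat.factorial_le (by omega)
      simpa using this
    exact le_trans (Nat.mul_le_mul_right _ h3) h2
  calc 2 * (n.choose k * k ^ m) = (2 * n.choose k) * k ^ m := by ring
    _ ≤ n ^ k * k ^ m := Nat.mul_le_mul_right _ h1
    _ < n ^ k * m ^ m := by
        apply Nat.mul_lt_mul_of_pos_left
        · exact Nat.pow_lt_pow_left (by omega) (by omega)
        · exact Nat.pow_pos (by omega)
    _ ≤ n ^ k * n := Nat.mul_le_mul_left _ hn
    _ = n ^ (k + 1) := (pow_succ n k).symm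
    _ ≤ n ^ (m - 1) := Nat.pow_le_pow_right (by omega) (by omega)

/-- **The noncommutative AM-GM inequality `W_m ≥ D_m` with the norm inside the sums is false**:
for every `m ≥ 4` it fails for all `n ≥ m ^ m`, and if `m ≥ 250` it fails for all `n ≥ m`
(in particular for `n = m`). Counterexamples exist both among real symmetric and among complex
Hermitian matrices, and they can be chosen to be orthogonal projections. -/
theorem result (𝕜 : Type) [RCLike 𝕜] (m n : ℕ) (hm : 4 ≤ m) (hmn : m ≤ n)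
    (h : m ^ m ≤ n ∨ 250 ≤ m) : Fails 𝕜 m n := by
  classical
  refine criterion 𝕜 m n ((m + 1) / 2) (by omega) (by omega) (by omega) hmn ?_
  rcases h with h | h
  · convert few_lt_four m n hm h
  · rcases le_total n (2 * m) with h2 | h2
    · convert few_lt_small m n h hmn h2
    · convert few_lt_large m n h h2

end Pool.Agent.Results.MP_6169a9_an.AMGMFails
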